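import Pool.Agent.Work.MP_833881_sy.Sym

/-!
Pigeon-symmetric `R(k)` refutations of `onto-FPHP` with `m` pigeons and `n` holes have at least
`2 ^ r` distinct lines whenever `3 (k + 2) r ≤ n < m`.
-/

set_option autoImplicit false

namespace Pool.Agent.Results.MP_833881_lc.PigeonSymmetric

open Pool.Agent.Work.MP_833881_lc Pool.Agent.Work.MP_833881_sy

theorem result (k m n r : ℕ) (hnm : n < m) (hr : 3 * (k + 2) * r ≤ n)
    (π : List (Line (Fin m × Fin n))) (hπ : IsRefutation k (ontoFPHP m n) π)
    (hsym : PigeonSymmetric π) : 2 ^ r ≤ π.toFinset.card :=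
  main hnm.le hr hπ hsym

end Pool.Agent.Results.MP_833881_lc.PigeonSymmetric
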