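import Pool.Agent.Work.MP_833881_rg.LightMain

/-!
Regular `R(2)` refutations of `onto-FPHP_n^{n^2}`, and `R(2)` refutations with at most `n^(3-ε)` cuts on
conjunctions of two variables on each path, or at most `n^(3-ε)` conjunctions of two variables in each
line, or with light lines, have at least `exp(n^(1-δ))` lines.

Definitions: `Work/MP_833881_lc/Defs.lean` (lines, `negTerm`, `IsRefutation`, `ontoFPHP`) and
`Work/MP_833881_rg/Defs.lean` (`Rule`, `Annotated`, `Path`, `PosPair`, `posCuts`, `Regular`,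
`LightLine`).
-/

namespace Pool.Agent.Results.MP_833881_lc.RegularRefutations

open Pool.Agent.Work.MP_833881_lc Pool.Agent.Work.MP_833881_rg Classical

/-- (1) For every `δ > 0` and all large `n`, every regular `R(2)` refutation of `onto-FPHP_n^{n^2}` has
at least `exp(n^(1-δ))` lines. For all `ε, δ > 0` and all large `n` the same holds for every `R(2)`
refutation such that (2) on each path at most `n^(3-ε)` cuts are on conjunctions of two variables, or
(3) on each path each variable is in at most `n^(1-ε)` such cut terms, or (4) each line contains at most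
`n^(3-ε)` conjunctions of two variables, or (5) each line is light. -/
theorem result : ∀ δ : ℝ, 0 < δ →
    (∃ n0 : ℕ, ∀ n ≥ n0,
      ∀ (N : ℕ) (L : ℕ → Line (Fin (n ^ 2) × Fin n)) (R : ℕ → Rule (Fin (n ^ 2) × Fin n)),
        Annotated 2 (ontoFPHP (n ^ 2) n) N L R → Regular N R →
        Real.exp ((n : ℝ) ^ (1 - δ)) ≤ N) ∧
    ∀ ε : ℝ, 0 < ε → ∃ n0 : ℕ, ∀ n ≥ n0,
      (∀ (N : ℕ) (L : ℕ → Line (Fin (n ^ 2) × Fin n)) (R : ℕ → Rule (Fin (n ^ 2) × Fin n)),
        Annotated 2 (ontoFPHP (n ^ 2) n) N L R →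
        (∀ (i : ℕ) (l : List (Term (Fin (n ^ 2) × Fin n))), Path N R i l →
          ((l.filter fun t => decide (PosPair t)).length : ℝ) ≤ (n : ℝ) ^ (3 - ε)) →
        Real.exp ((n : ℝ) ^ (1 - δ)) ≤ N) ∧
      (∀ (N : ℕ) (L : ℕ → Line (Fin (n ^ 2) × Fin n)) (R : ℕ → Rule (Fin (n ^ 2) × Fin n)),
        Annotated 2 (ontoFPHP (n ^ 2) n) N L R →
        (∀ (i : ℕ) (l : List (Term (Fin (n ^ 2) × Fin n))), Path N R i l →
          ∀ x : Fin (n ^ 2) × Fin n, (posCuts l x : ℝ) ≤ (n : ℝ) ^ (1 - ε)) →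
        Real.exp ((n : ℝ) ^ (1 - δ)) ≤ N) ∧
      (∀ π : List (Line (Fin (n ^ 2) × Fin n)), IsRefutation 2 (ontoFPHP (n ^ 2) n) π →
        (∀ D ∈ π, ((D.filter PosPair).card : ℝ) ≤ (n : ℝ) ^ (3 - ε)) →
        Real.exp ((n : ℝ) ^ (1 - δ)) ≤ π.length) ∧
      ∀ π : List (Line (Fin (n ^ 2) × Fin n)), IsRefutation 2 (ontoFPHP (n ^ 2) n) π →
        (∀ D ∈ π, LightLine ε D) →
        Real.exp ((n : ℝ) ^ (1 - δ)) ≤ π.length := by
  intro δ hδ
  refine ⟨regular_bound light δ hδ, fun ε hε => ?_⟩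
  obtain ⟨n2, h2⟩ := few_cuts light ε δ hε hδ
  obtain ⟨n3, h3⟩ := light_cuts light ε δ hε hδ
  obtain ⟨n4, h4⟩ := few_pairs light ε δ hε hδ
  obtain ⟨n5, h5⟩ := light ε δ hε hδ
  refine ⟨max (max n2 n3) (max n4 n5), fun n hn => ⟨?_, ?_, ?_, ?_⟩⟩
  · exact h2 n (le_trans (le_trans (le_max_left _ _) (le_max_left _ _)) hn)
  · exact h3 n (le_trans (le_trans (le_max_right _ _) (le_max_left _ _)) hn)
  · exact h4 n (le_trans (le_trans (le_max_left _ _) (le_max_right _ _)) hn)
  · exact h5 n (le_trans (le_trans (le_max_right _ _) (le_max_right _ _)) hn)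

end Pool.Agent.Results.MP_833881_lc.RegularRefutations
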