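import Pool.Agent.Work.MP_833881_lc.Params

/-!
An upper bound for resolution (hence `R(2)`) refutations of the weak pigeonhole principle:
`exp(O(n / log m + sqrt n))` for all `m ≥ n^2`, in particular `exp(O(n / log n))` for `m = n^2` and
`exp(O(sqrt n))` for `m ≥ exp(sqrt n)`.
-/

namespace Pool.Agent.Results.MP_833881_lc.UpperBound

open Pool.Agent.Work.MP_833881_lc

/-- For all `n ≥ 16` and `m ≥ n^2` there is a resolution refutation of `PHP_n^m` (which is also an `R(2)`
refutation of `onto-FPHP_n^m`) of size at most `exp(270 (n / log m + sqrt n))`. -/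
theorem result : ∀ n m : ℕ, 16 ≤ n → n ^ 2 ≤ m → ∃ π : List (Line (Fin m × Fin n)),
    IsRefutation 1 (PHP m n) π ∧ IsRefutation 2 (ontoFPHP m n) π ∧
      (size π : ℝ) ≤ Real.exp (270 * (n / Real.log m + Real.sqrt n)) := by
  intro n m hn hm
  obtain ⟨π, h1, h2⟩ := tree_real hn hm
  exact ⟨π, h1, to_onto h1, h2⟩

end Pool.Agent.Results.MP_833881_lc.UpperBound
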